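import Mathlib
import Pool.Agent.H31.DegMono

set_option autoImplicit false

namespace Pool.Agent.Results.MP_a6acde_co.Lower

/-- G has a degree-monotone path p 0, ..., p (m-1) of order m. -/
def HasPath {V : Type} (G : SimpleGraph V) (m : ℕ) : Prop :=
  ∃ p : ℕ → V, Set.InjOn p (Set.Iio m) ∧ ∀ i, i + 1 < m → G.Adj (p i) (p (i + 1)) ∧
    (G.neighborSet (p i)).ncard ≤ (G.neighborSet (p (i + 1))).ncard

/-- A 2-colouring of K_n is a graph G (colour 1) with its complement (colour 2). -/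
noncomputable def M2 (m : ℕ) : ℕ :=
  sInf {M | ∀ n, M ≤ n → ∀ G : SimpleGraph (Fin n), HasPath G m ∨ HasPath Gᶜ m}

theorem result : ∀ m : ℕ, 5 ≤ m → (m - 1) ^ 2 < M2 m + 7 := by
  intro m hm
  obtain ⟨t, rfl⟩ : ∃ t, m = t + 1 := ⟨m - 1, by omega⟩
  have hne : {M | ∀ n, M ≤ n → ∀ G : SimpleGraph (Fin n),
      HasPath G (t + 1) ∨ HasPath Gᶜ (t + 1)}.Nonempty := by
    obtain ⟨M, hM⟩ := H31.DegMono.finite_ramsey 2 (t + 1) (by omega) (by omega)
    refine ⟨M, fun n hn G => ?_⟩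
    obtain ⟨j, hj⟩ := hM n hn ![G, Gᶜ] (fun x y hxy => by
      by_cases h : G.Adj x y
      · exact ⟨0, h⟩
      · exact ⟨1, ⟨hxy, h⟩⟩)
    fin_cases j
    · exact Or.inl hj
    · exact Or.inr hj
  obtain ⟨n, hn, V, _, G, h1, h2, h3, _, _⟩ := H31.DegMono.st_main t (by omega)
  by_contra hc
  let e : Fin n ≃ V := (Fintype.equivFinOfCardEq h1).symm
  rcases Nat.sInf_mem hne n (by
    have : M2 (t + 1) + 7 ≤ t ^ 2 := by simpa using hc
    unfold M2 at this; omega) (G.comap e) with h | h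
  · exact h2 (H31.DegMono.hp_comap e G _ h)
  · refine h3 (H31.DegMono.hp_comap e Gᶜ _ ?_)
    have : Gᶜ.comap e = (G.comap e)ᶜ := by ext x y; simp
    rw [this]; exact h

end Pool.Agent.Results.MP_a6acde_co.Lower
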